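import Mathlib

namespace Pool.Agent.Results.MP_e6e7b2_al.Counter

open MvPowerSeries

/-- The Hessian matrix of a formal power series. -/
noncomputable def Hes {n : ℕ} (P : MvPowerSeries (Fin n) ℂ) :
    Matrix (Fin n) (Fin n) (MvPowerSeries (Fin n) ℂ) :=
  Matrix.of fun i j => pderiv ℂ i (pderiv ℂ j P)

/-- The formal map `F = z - ∇P`. -/
noncomputable def mapF {n : ℕ} (P : MvPowerSeries (Fin n) ℂ) : Fin n → MvPowerSeries (Fin n) ℂ :=
  fun i => X i - pderiv ℂ i P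

/-- The formal map `G = z + ∇Q`. -/
noncomputable def mapG {n : ℕ} (Q : MvPowerSeries (Fin n) ℂ) : Fin n → MvPowerSeries (Fin n) ℂ :=
  fun i => X i + pderiv ℂ i Q

/-- `Q` is the inversion pair of `P`: `Q(0) = 0` and `z + ∇Q` is the two-sided formal inverse
of `z - ∇P`. -/
def InversionPair {n : ℕ} (P Q : MvPowerSeries (Fin n) ℂ) : Prop :=
  constantCoeff Q = 0 ∧ HasSubst (mapF P) ∧ HasSubst (mapG Q) ∧
    (∀ i, subst (mapG Q) (mapF P i) = X i) ∧ ∀ i, subst (mapF P) (mapG Q i) = X i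

abbrev R : Type := MvPowerSeries (Fin 3) ℂ

noncomputable def J : R := C Complex.I
noncomputable def w : R := (1 + X 0 + J * X 1)⁻¹
noncomputable def t : R := X 2 * w
noncomputable def u : R := X 0 - J * X 1 + X 2 * t
noncomputable def du : Fin 3 → R := ![1 - t ^ 2, -J - J * t ^ 2, 2 * t]

lemma hJ : J * J + 1 = 0 := by
  rw [J, ← map_mul, Complex.I_mul_I, map_neg, map_one, neg_add_cancel]

lemma hw : w * (1 + X 0 + J * X 1) = 1 :=
  MvPowerSeries.inv_mul_cancel _ (by simp [J])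

lemma dJ (i : Fin 3) : pderiv ℂ i J = 0 := pderiv_C

lemma dw (i : Fin 3) : pderiv ℂ i w = -w ^ 2 * ![1, J, 0] i := by
  rw [w, pderiv_inv']
  congr 1
  fin_cases i <;> simp [Derivation.leibniz, dJ, pderiv_X_of_ne]

lemma dt (i : Fin 3) : pderiv ℂ i t = ![-t * w, -J * t * w, w] i := by
  rw [t, Derivation.leibniz, dw]
  fin_cases i <;> simp [pderiv_X_of_ne] <;> ring

lemma d_u (i : Fin 3) : pderiv ℂ i u = du i := by
  rw [u, map_add, map_sub, Derivation.leibniz, Derivation.leibniz, dt, dJ]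
  fin_cases i <;> simp [pderiv_X_of_ne, du, t] <;> ring

lemma dP (i : Fin 3) : pderiv ℂ i (u ^ 3) = 3 * u ^ 2 * du i := by
  rw [pderiv_pow, d_u]; norm_num

lemma u0 : constantCoeff u = 0 := by simp [u]

lemma hs (e : R) : HasSubst (fun i => X i + e * pderiv ℂ i (u ^ 3) : Fin 3 → R) :=
  hasSubst_of_constantCoeff_zero fun i => by simp [dP, u0]

lemma inv (e : R) (i : Fin 3) :
    subst (fun i => X i + e * pderiv ℂ i (u ^ 3) : Fin 3 → R) (pderiv ℂ i (u ^ 3)) =
      pderiv ℂ i (u ^ 3) := by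
  rw [← substAlgHom_apply (hs e)]
  obtain ⟨φ, hφ⟩ : ∃ φ : R →ₐ[ℂ] R, φ = substAlgHom (hs e) := ⟨_, rfl⟩
  rw [← hφ]
  have hX : ∀ j, φ (X j) = X j + e * (3 * u ^ 2 * du j) := fun j => by
    rw [hφ, substAlgHom_X, dP]
  have x0 : φ (X 0) = X 0 + e * (3 * u ^ 2 * (1 - t ^ 2)) := hX 0
  have x1 : φ (X 1) = X 1 + e * (3 * u ^ 2 * (-J - J * t ^ 2)) := hX 1
  have x2 : φ (X 2) = X 2 + e * (3 * u ^ 2 * (2 * t)) := hX 2
  have pJ : φ J = J := φ.commutes Complex.I
  have hw' : φ w * (1 + X 0 + J * X 1 + 2 * (e * 3 * u ^ 2)) = 1 := by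
    have := congrArg φ hw
    rw [map_mul, map_add, map_add, map_mul, map_one, x0, x1, pJ] at this
    linear_combination this + φ w * (e * 3 * u ^ 2) * (1 + t ^ 2) * hJ
  have pt : φ t = t := by
    have e1 : t = X 2 * w := rfl
    conv_lhs => rw [e1, map_mul, x2]
    linear_combination (X 2 * w) * hw' - (X 2 * φ w) * hw +
      (2 * (e * 3 * u ^ 2) * φ w - 1) * e1
  have pu : φ u = u := by
    have e1 : u = X 0 - J * X 1 + X 2 * t := rfl
    conv_lhs => rw [e1, map_add, map_sub, map_mul, map_mul, x0, x1, x2, pJ, pt]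
    linear_combination (e * 3 * u ^ 2) * (1 + t ^ 2) * hJ - e1
  have p2 : φ 2 = 2 := map_ofNat φ 2
  have p3 : φ 3 = 3 := map_ofNat φ 3
  rw [dP, map_mul, map_mul, map_pow, pu, p3]
  congr 1
  fin_cases i <;> simp [du, pt, pJ, p2]

theorem result : ∃ (n : ℕ) (P : MvPowerSeries (Fin n) ℂ), 1 ≤ n ∧ 2 ≤ P.order ∧
    IsNilpotent ((Hes P).map constantCoeff) ∧ InversionPair P P ∧ ¬ IsNilpotent (Hes P) := by
  have hF : mapF (u ^ 3) = fun i => X i + (-1 : R) * pderiv ℂ i (u ^ 3) := by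
    funext i; rw [mapF]; ring
  have hG : mapG (u ^ 3) = fun i => X i + (1 : R) * pderiv ℂ i (u ^ 3) := by
    funext i; rw [mapG]; ring
  have d3 : ∀ i : Fin 3, pderiv ℂ i (3 : R) = 0 := fun i => by
    rw [← map_ofNat (C : ℂ →+* R) 3]; exact pderiv_C
  have d2 : ∀ i : Fin 3, pderiv ℂ i (2 : R) = 0 := fun i => by
    rw [← map_ofNat (C : ℂ →+* R) 2]; exact pderiv_C
  have hH : ∀ i j, Hes (u ^ 3) i j = 3 * u ^ 2 * pderiv ℂ i (du j) + 6 * u * du i * du j := by
    intro i j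
    rw [Hes, Matrix.of_apply, dP, Derivation.leibniz, Derivation.leibniz, pderiv_pow, d_u, d3]
    simp only [smul_eq_mul]
    push_cast
    ring
  refine ⟨3, u ^ 3, by norm_num, le_trans (by norm_num)
    (le_order_pow_of_constantCoeff_eq_zero 3 u0), ⟨1, ?_⟩, ⟨by simp [u0], hF ▸ hs _, hG ▸ hs _,
      fun i => ?_, fun i => ?_⟩, fun hn => ?_⟩
  · ext i j
    simp [hH, u0]
  · rw [mapF, hG, subst_sub (hs 1), inv, subst_X (hs 1)]; ring
  · rw [mapG, hF, subst_add (hs (-1)), inv, subst_X (hs (-1))]; ring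
  · have h1 := (Matrix.isNilpotent_trace_of_isNilpotent hn).eq_zero
    have h2 : (Hes (u ^ 3)).trace = 6 * u ^ 2 * w := by
      rw [Matrix.trace_fin_three, hH, hH, hH]
      have a0 : pderiv ℂ 0 (du 0) = 2 * t ^ 2 * w := by
        show pderiv ℂ 0 (1 - t ^ 2) = _
        rw [map_sub, pderiv_one, pderiv_pow, dt]; simp; ring
      have a1 : pderiv ℂ 1 (du 1) = 2 * (J * J) * t ^ 2 * w := by
        show pderiv ℂ 1 (-J - J * t ^ 2) = _
        rw [map_sub, map_neg, Derivation.leibniz, pderiv_pow, dt, dJ]; simp; ring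
      have a2 : pderiv ℂ 2 (du 2) = 2 * w := by
        show pderiv ℂ 2 (2 * t) = _
        rw [Derivation.leibniz, dt, d2]; simp
      rw [a0, a1, a2]
      show _ + 6 * u * (1 - t ^ 2) * (1 - t ^ 2) + (_ + 6 * u * (-J - J * t ^ 2) * (-J - J * t ^ 2))
        + (_ + 6 * u * (2 * t) * (2 * t)) = _
      linear_combination (6 * u ^ 2 * t ^ 2 * w + 6 * u * (1 + t ^ 2) ^ 2) * hJ
    have hu : u = 0 := by
      have h3 : 6 * u ^ 2 = 0 := by
        linear_combination (1 + X 0 + J * X 1) * (h2.symm.trans h1) - 6 * u ^ 2 * hw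
      have h6 : (6 : R) ≠ 0 := fun h => by
        have := congrArg constantCoeff h
        rw [map_ofNat, map_zero] at this
        norm_num at this
      exact pow_eq_zero_iff (two_ne_zero) |>.1 ((mul_eq_zero.1 h3).resolve_left h6)
    have h4 := congrArg constantCoeff (d_u 0)
    rw [hu] at h4
    simp [du, t] at h4

end Pool.Agent.Results.MP_e6e7b2_al.Counter
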